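import Pool.Graph.R_seed8.Helper807.BS.LEngine2

set_option autoImplicit false

/-!
The engine of the library with the domination of `Φ(|Y|)` for an arbitrary increasing function `Φ`
(the proofs are those of the library modules `Helper807.BS.LBnd` and `Helper807.BS.LEngine2`).
-/

namespace Pool.Agent.H6.BS

open MeasureTheory ProbabilityTheory Set Filter Pool.Agent.Helper807.BS
open scoped NNReal ENNReal Topology

universe u

variable {Ω : Type u} [mΩ : MeasurableSpace Ω]

theorem Yp_boundF_aux (T : ℝ) (hT : 0 < T) (W : Fin 2 → ℝ → Ω → ℝ) (idx : ℕ → Fin 2)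
    (lam : Fin 2 → ℝ) (v y : ℕ → ℝ) (Φ : ℝ → ℝ) (hΦ0 : ∀ x, 0 ≤ Φ x)
    (hΦ : ∀ x y, 0 ≤ x → x ≤ y → Φ x ≤ Φ y) (t : ℝ) (ω : Ω) (j : ℕ) :
    (ω ∈ Al T W idx j → tt T j ≤ t →
      y 0 + ∑ n ∈ Finset.range j, Yn T W idx lam v y n t ω = y j) ∧
    Φ |y 0 + ∑ n ∈ Finset.range j, Yn T W idx lam v y n t ω| ≤
      Φ |y 0| + ∑ n ∈ Finset.range j, (Al T W idx n).indicator
        (fun _ => Φ (max (max |y n| |y (n + 1)|) |v n|)) ω := by
  induction j with
  | zero => simp
  | succ j ih =>
    obtain ⟨ih1, ih2⟩ := ih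
    rw [Finset.sum_range_succ, Finset.sum_range_succ, ← add_assoc, ← add_assoc]
    obtain ⟨S, hS⟩ : ∃ S, S = y 0 + ∑ n ∈ Finset.range j, Yn T W idx lam v y n t ω := ⟨_, rfl⟩
    obtain ⟨R, hR⟩ : ∃ R, R = Φ |y 0| + ∑ n ∈ Finset.range j,
      (Al T W idx n).indicator
        (fun _ => Φ (max (max |y n| |y (n + 1)|) |v n|)) ω := ⟨_, rfl⟩
    rw [← hS] at ih1 ih2 ⊢
    rw [← hR] at ih2 ⊢
    have hR0 : 0 ≤ R := le_trans (hΦ0 _) ih2
    by_cases hA : ω ∈ Al T W idx j
    · have hY : Yn T W idx lam v y j t ω = ust (lam (idx j)) (y j) (y (j + 1)) (v j) (tt T j)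
          (tt T (j + 1)) (fun s => W (idx j) s ω) t - y j := by
        unfold Yn
        rw [Set.indicator_of_mem hA]
      rw [hY, Set.indicator_of_mem hA]
      by_cases ht : t ≤ tt T j
      · have hu : ust (lam (idx j)) (y j) (y (j + 1)) (v j) (tt T j)
          (tt T (j + 1)) (fun s => W (idx j) s ω) t = y j := by
          unfold ust
          rw [if_pos ht]
        rw [hu, sub_self, add_zero]
        refine ⟨fun _ h2 => ?_, ?_⟩
        · have := tt_lt_succ T hT j
          linarith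
        · have := hΦ0 (max (max |y j| |y (j + 1)|) |v j|)
          linarith
      · push Not at ht
        rw [ih1 hA ht.le, add_sub_cancel]
        have hK1 : |y (j + 1)| ≤ max (max |y j| |y (j + 1)|) |v j| :=
          (le_max_right _ _).trans (le_max_left _ _)
        have hK2 : |v j| ≤ max (max |y j| |y (j + 1)|) |v j| := le_max_right _ _
        refine ⟨fun h1 h2 => ?_, ?_⟩
        · obtain ⟨-, h3⟩ := (Al_succ_iff T W idx j ω).mp h1
          unfold ust
          rw [if_neg (not_le.mpr ht), if_neg (not_lt.mpr h2), if_pos h3]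
        · have hle : |ust (lam (idx j)) (y j) (y (j + 1)) (v j) (tt T j)
            (tt T (j + 1)) (fun s => W (idx j) s ω) t| ≤
              max (max |y j| |y (j + 1)|) |v j| := by
            unfold ust
            rw [if_neg (not_le.mpr ht)]
            split_ifs
            · exact (abs_stu_le _ _ _ _ _ _).trans (max_le hK1 hK2)
            · exact hK1
            · exact hK2
          have h4 := hΦ _ _ (abs_nonneg _) hle
          linarith
    · have hY : Yn T W idx lam v y j t ω = 0 := by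
        unfold Yn
        rw [Set.indicator_of_notMem hA]
      rw [hY, Set.indicator_of_notMem hA, add_zero, add_zero]
      refine ⟨fun h1 _ => ?_, ih2⟩
      exact absurd ((Al_succ_iff T W idx j ω).mp h1).1 hA

/-- bound for `Y`: pathwise domination -/
theorem Yp_boundF (T : ℝ) (hT : 0 < T) (W : Fin 2 → ℝ → Ω → ℝ) (idx : ℕ → Fin 2)
    (lam : Fin 2 → ℝ) (v y : ℕ → ℝ) (Φ : ℝ → ℝ) (hΦ0 : ∀ x, 0 ≤ Φ x)
    (hΦ : ∀ x y, 0 ≤ x → x ≤ y → Φ x ≤ Φ y) (t : ℝ) (ω : Ω) :
    Φ |Yp T W idx lam v y t ω| ≤ Φ |y 0| +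
      ∑' n, (Al T W idx n).indicator
        (fun _ => Φ (max (max |y n| |y (n + 1)|) |v n|)) ω := by
  obtain ⟨k, hk⟩ := exists_not_mem_Al T W idx ω
  rw [Yp_eq T W idx lam v y k ω hk t]
  have hts : ∑' n, (Al T W idx n).indicator
        (fun _ => Φ (max (max |y n| |y (n + 1)|) |v n|)) ω =
      ∑ n ∈ Finset.range k, (Al T W idx n).indicator
        (fun _ => Φ (max (max |y n| |y (n + 1)|) |v n|)) ω := by
    apply tsum_eq_sum
    intro n hn
    apply Set.indicator_of_notMem
    intro hmem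
    apply hk
    apply Al_anti T W idx _ hmem
    simpa using hn
  rw [hts]
  exact (Yp_boundF_aux T hT W idx lam v y Φ hΦ0 hΦ t ω k).2

/-- The common engine: for any parameters there is a terminal value `ξ` such that every
admissible sequence `y` gives a solution started at `y 0`. -/
theorem engineF (P : Measure Ω) [IsProbabilityMeasure P] (B : Fin 2 → ℝ≥0 → Ω → ℝ)
    (hB : IsBM2 B P) (T : ℝ) (hT : 0 < T) (idx : ℕ → Fin 2) (lam : Fin 2 → ℝ) (v : ℕ → ℝ) :
    ∃ ξ : Ω → ℝ, Measurable[Fil B P T, borel ℝ] ξ ∧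
      ∀ y : ℕ → ℝ, (∀ n, y n = Gf (lam (idx n)) (y (n + 1)) (v n) (1 / 2)) →
        ∃ (Y : ℝ → Ω → ℝ) (Z : Fin 2 → ℝ → Ω → ℝ),
          IsSol T P B (fun z => ∑ i, lam i / 2 * (z i) ^ 2) ξ Y Z ∧
          (∀ ω, Y 0 ω = y 0) ∧
          (∀ m : ℝ, 0 < m → Summable (fun n => (1 / 2 : ℝ) ^ n *
              Real.exp (m * max (max |y n| |y (n + 1)|) |v n|)) →
            ClassD T P (Fil B P) (fun t ω => Real.exp (m * |Y t ω|)) ∧
            Integrable (fun ω => Real.exp (m * |ξ ω|)) P) ∧
          ∀ Φ : ℝ → ℝ, (∀ x, 0 ≤ Φ x) → (∀ x y, 0 ≤ x → x ≤ y → Φ x ≤ Φ y) →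
            Summable (fun n => (1 / 2 : ℝ) ^ n * Φ (max (max |y n| |y (n + 1)|) |v n|)) →
            ∃ S : Ω → ℝ, Integrable S P ∧ (∀ t ω, Φ |Y t ω| ≤ S ω) ∧
              ∀ᵐ ω ∂P, Φ |ξ ω| ≤ S ω := by
  obtain ⟨W, hW, hWB, hgood⟩ := exists_cbm_good P B hB T hT idx
  refine ⟨xi T W idx v, measurable_xi P (Fil B P) W hW T hT idx v, ?_⟩
  intro y hy
  have hal := (Al_facts P (Fil B P) W hW T hT idx).2.2
  have hpa := fun ω => path_facts_of P (Fil B P) W hW T hT idx lam v y hy ω (hgood ω)
  have hpf := Filter.Eventually.of_forall (f := ae P) hpa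
  have hprogY := engine_progY P (Fil B P) W hW T hT idx lam v y
  refine ⟨Yp T W idx lam v y, Zp T W idx lam v y, ?_, fun ω => Yp_zero T hT W idx lam v y ω,
    ?_, ?_⟩
  · refine ⟨hprogY, fun i => engine_progZ P (Fil B P) W hW T hT idx lam v y i, ?_, ?_,
      Mp T W idx lam v y, ?_, ?_, ?_⟩
    · exact fun ω => (hpa ω).1.continuousOn
    · filter_upwards [hpf] with ω hω
      obtain ⟨-, -, -, hb⟩ := hω
      choose C hC using hb
      have hle : ∀ s, ENNReal.ofReal (∑ i, (Zp T W idx lam v y i s ω) ^ 2) ≤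
          ENNReal.ofReal (∑ i, (C i) ^ 2) := by
        intro s
        apply ENNReal.ofReal_le_ofReal
        apply Finset.sum_le_sum
        intro i _
        rw [← sq_abs]
        exact pow_le_pow_left₀ (abs_nonneg _) (hC i s) 2
      calc ∫⁻ s in Icc (0 : ℝ) T, ENNReal.ofReal (∑ i, (Zp T W idx lam v y i s ω) ^ 2)
          ≤ ∫⁻ _ in Icc (0 : ℝ) T, ENNReal.ofReal (∑ i, (C i) ^ 2) := lintegral_mono hle
        _ = ENNReal.ofReal (∑ i, (C i) ^ 2) * volume (Icc (0 : ℝ) T) := by
            rw [setLIntegral_const]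
        _ < ∞ := by
            rw [Real.volume_Icc]
            exact ENNReal.mul_lt_top ENNReal.ofReal_lt_top ENNReal.ofReal_lt_top
    · exact isIto_congr_W T P (Fil B P) W (bt B) _ _ hT.le (fun i t _ => hWB i t)
        (isIto_Mp P (Fil B P) W hW T hT idx lam v y hy)
    · filter_upwards [hpf] with ω hω
      exact hω.2.1.continuousOn
    · filter_upwards [hpf, hal, eqn_M P (Fil B P) W hW T hT idx lam v y] with ω hω h0 hM t ht
      obtain ⟨-, -, hmeas, hb⟩ := hω
      choose C hC using hb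
      have hYT := Yp_T T hT W idx lam v y ω h0
      have hint : ∀ a b : ℝ, IntervalIntegrable
          (fun s => ∑ i, lam i / 2 * (Zp T W idx lam v y i s ω) ^ 2) volume a b := by
        intro a b
        rw [intervalIntegrable_iff]
        refine Measure.integrableOn_of_bounded (M := ∑ i, |lam i / 2| * (C i) ^ 2) ?_ ?_ ?_
        · rw [Set.uIoc, Real.volume_Ioc]
          exact ENNReal.ofReal_ne_top
        · apply Measurable.aestronglyMeasurable
          exact Finset.measurable_fun_sum _ (fun i _ => ((hmeas i).pow_const 2).const_mul _)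
        · refine Filter.Eventually.of_forall (fun s => ?_)
          rw [Real.norm_eq_abs]
          refine (Finset.abs_sum_le_sum_abs _ _).trans (Finset.sum_le_sum fun i _ => ?_)
          rw [abs_mul]
          apply mul_le_mul_of_nonneg_left _ (abs_nonneg _)
          rw [abs_of_nonneg (sq_nonneg _), ← sq_abs]
          exact pow_le_pow_left₀ (abs_nonneg _) (hC i s) 2
      have h1 := hM t ht
      have h2 := hM T ⟨hT.le, le_rfl⟩
      have h3 := intervalIntegral.integral_interval_sub_left (hint 0 T) (hint 0 t)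
      rw [← hYT]
      have h4 : (∫ s in t..T, (fun z : Fin 2 → ℝ => ∑ i, lam i / 2 * (z i) ^ 2)
          (fun i => Zp T W idx lam v y i s ω)) =
          ∫ s in t..T, ∑ i, lam i / 2 * (Zp T W idx lam v y i s ω) ^ 2 := rfl
      rw [h4, ← h3, h1, h2]
      ring
  · intro m hm hs
    set S : Ω → ℝ := fun ω => Real.exp (m * |y 0|) +
      ∑' n, (Al T W idx n).indicator
        (fun _ => Real.exp (m * max (max |y n| |y (n + 1)|) |v n|)) ω with hS
    have hSi : Integrable S P := integrable_dom P (Fil B P) W hW T hT idx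
      (fun n => Real.exp (m * max (max |y n| |y (n + 1)|) |v n|)) (Real.exp (m * |y 0|))
      (fun n => (Real.exp_pos _).le) hs
    have hcont : Continuous (fun x : ℝ => Real.exp (m * |x|)) := by fun_prop
    constructor
    · refine classD_of_dominated P (Fil B P) hW.le hW.mono T hT.le _ ?_ S hSi ?_
      · intro t ht
        exact hcont.measurable.comp (hprogY t ht)
      · intro t _ ω
        rw [abs_of_pos (Real.exp_pos _)]
        exact Yp_bound T hT W idx lam v y m hm.le t ω
    · have hxm : Measurable (xi T W idx v) :=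
        (measurable_xi P (Fil B P) W hW T hT idx v).mono (hW.le T) le_rfl
      refine Integrable.mono' hSi (hcont.measurable.comp hxm).aestronglyMeasurable ?_
      filter_upwards [hal] with ω h0
      rw [Real.norm_eq_abs, abs_of_pos (Real.exp_pos _), ← Yp_T T hT W idx lam v y ω h0]
      exact Yp_bound T hT W idx lam v y m hm.le T ω
  · intro Φ hΦ0 hΦ hs
    refine ⟨fun ω => Φ |y 0| + ∑' n, (Al T W idx n).indicator
        (fun _ => Φ (max (max |y n| |y (n + 1)|) |v n|)) ω,
      integrable_dom P (Fil B P) W hW T hT idx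
        (fun n => Φ (max (max |y n| |y (n + 1)|) |v n|)) (Φ |y 0|) (fun n => hΦ0 _) hs,
      fun t ω => Yp_boundF T hT W idx lam v y Φ hΦ0 hΦ t ω, ?_⟩
    filter_upwards [hal] with ω h0
    rw [← Yp_T T hT W idx lam v y ω h0]
    exact Yp_boundF T hT W idx lam v y Φ hΦ0 hΦ T ω

end Pool.Agent.H6.BS
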