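import Pool.Graph.R_seed8.Y518.BS.Fill

set_option autoImplicit false

/-!
The sequences for an arbitrary indefinite diagonal generator: the order in which the two coordinates
are used follows a bounded reference walk with the steps `log 2 / al iu > 0`, `log 2 / al id < 0`;
the frozen values grow like `(s / μ) log n`, where `μ = min (al iu) (- al id)` and `s > 1`.
-/

namespace Pool.Agent.H6.BS

open Pool.Agent.Helper807.BS Pool.Agent.Y518.BS Filter
open scoped Topology

section Seq

variable (al : Fin 2 → ℝ) (iu id : Fin 2) (μ s : ℝ) (n0 : ℕ) (c W : ℝ)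

/-- the reference walk -/
noncomputable def rr : ℕ → ℝ
  | 0 => 0
  | n + 1 => if rr n ≤ 0 then rr n + Real.log 2 / al iu else rr n + Real.log 2 / al id

/-- which coordinate is used -/
noncomputable def ix (n : ℕ) : Fin 2 := if rr al iu id n ≤ 0 then iu else id

/-- the bound of the reference walk -/
noncomputable def KK : ℝ := 1 / al iu + 1 / (-al id)

/-- the size of the frozen values -/
noncomputable def VV (n : ℕ) : ℝ := W + s / μ * Real.log ((n : ℝ) + n0)

/-- the frozen values -/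
noncomputable def vv (n : ℕ) : ℝ := if rr al iu id n ≤ 0 then -VV μ s n0 W n else VV μ s n0 W n

/-- the error of one step -/
noncomputable def ee (n : ℕ) : ℝ := ((n : ℝ) + n0) ^ (-s) / μ

/-- the values of the surviving path -/
noncomputable def ww : ℕ → ℝ
  | 0 => c
  | n + 1 => Real.log (2 * Real.exp (al (ix al iu id n) * ww n) -
      Real.exp (al (ix al iu id n) * vv al iu id μ s n0 W n)) / al (ix al iu id n)

variable {al iu id μ s n0}

theorem rr_range (hu : 0 < al iu) (hd : al id < 0) (n : ℕ) :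
    Real.log 2 / al id ≤ rr al iu id n ∧ rr al iu id n ≤ Real.log 2 / al iu := by
  have hl : 0 < Real.log 2 := Real.log_pos (by norm_num)
  have h1 : 0 < Real.log 2 / al iu := div_pos hl hu
  have h2 : Real.log 2 / al id < 0 := div_neg_of_pos_of_neg hl hd
  induction n with
  | zero =>
    rw [rr]
    exact ⟨h2.le, h1.le⟩
  | succ n ih =>
    rw [rr]
    split_ifs with h
    · constructor <;> linarith [ih.1]
    · push Not at h
      constructor <;> linarith [ih.2]

theorem KK_pos (hu : 0 < al iu) (hd : al id < 0) : 0 < KK al iu id := by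
  unfold KK
  have : 0 < -al id := by linarith
  positivity

theorem rr_abs (hu : 0 < al iu) (hd : al id < 0) (n : ℕ) : |rr al iu id n| ≤ KK al iu id := by
  obtain ⟨h1, h2⟩ := rr_range hu hd n
  have hl : Real.log 2 < 1 := by
    have := Real.log_two_lt_d9
    linarith
  have hl0 : 0 < Real.log 2 := Real.log_pos (by norm_num)
  have hd' : 0 < -al id := by linarith
  have h3 : Real.log 2 / al iu ≤ 1 / al iu := div_le_div_of_nonneg_right hl.le hu.le
  have h4 : Real.log 2 / (-al id) ≤ 1 / (-al id) := div_le_div_of_nonneg_right hl.le hd'.le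
  have h5 : 0 < 1 / al iu := by positivity
  have h6 : 0 < 1 / (-al id) := by positivity
  have h7 : Real.log 2 / al id = -(Real.log 2 / (-al id)) := by rw [div_neg, neg_neg]
  unfold KK
  rw [abs_le]
  constructor <;> linarith

/-- One step. -/
theorem one_step {l V W w v e : ℝ} (hl : l ≠ 0) (hw : |w| ≤ W) (hv : l * v = -(|l| * V))
    (hWV : W ≤ V) (he : Real.exp (-(|l| * (V - W))) / |l| ≤ e) :
    0 < 2 * Real.exp (l * w) - Real.exp (l * v) ∧
    |Real.log (2 * Real.exp (l * w) - Real.exp (l * v)) / l - w - Real.log 2 / l| ≤ e := by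
  have hla : 0 < |l| := abs_pos.2 hl
  have h1 : -(|l| * W) ≤ l * w := by
    have h2 : |l * w| ≤ |l| * W := by
      rw [abs_mul]
      exact mul_le_mul_of_nonneg_left hw hla.le
    have h3 := neg_abs_le (l * w)
    linarith
  have h4 : l * v ≤ l * w := by
    rw [hv]
    have := mul_le_mul_of_nonneg_left hWV hla.le
    linarith
  have h5 : Real.exp (l * v) ≤ Real.exp (l * w) := Real.exp_le_exp.2 h4
  have h6 := Real.exp_pos (l * w)
  have h7 := Real.exp_pos (l * v)
  have hE : 0 < 2 * Real.exp (l * w) - Real.exp (l * v) := by linarith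
  refine ⟨hE, ?_⟩
  set x : ℝ := Real.exp (l * v - l * w) / 2 with hx
  have hx0 : 0 < x := by rw [hx]; positivity
  have hx1 : x ≤ Real.exp (-(|l| * (V - W))) / 2 := by
    rw [hx]
    apply div_le_div_of_nonneg_right _ (by norm_num)
    apply Real.exp_le_exp.2
    rw [hv]
    linarith
  have hx2 : x ≤ 1 / 2 := by
    rw [hx]
    apply div_le_div_of_nonneg_right _ (by norm_num)
    rw [Real.exp_le_one_iff]
    linarith
  have hfac : 2 * Real.exp (l * w) - Real.exp (l * v) = Real.exp (l * w) * (2 * (1 - x)) := by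
    rw [hx, Real.exp_sub]
    field_simp
  have hlog : Real.log (2 * Real.exp (l * w) - Real.exp (l * v)) =
      l * w + (Real.log 2 + Real.log (1 - x)) := by
    rw [hfac, Real.log_mul h6.ne' (by linarith), Real.log_exp,
      Real.log_mul (by norm_num) (by linarith)]
  have hdiff : Real.log (2 * Real.exp (l * w) - Real.exp (l * v)) / l - w - Real.log 2 / l =
      Real.log (1 - x) / l := by
    rw [hlog]
    field_simp
    ring
  have hlow : -(2 * x) ≤ Real.log (1 - x) := by
    have h8 := Real.one_sub_inv_le_log_of_pos (x := 1 - x) (by linarith)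
    have h9 : (1 - x)⁻¹ ≤ 1 + 2 * x := by
      rw [inv_le_iff_one_le_mul₀ (by linarith)]
      nlinarith
    linarith
  have hupp : Real.log (1 - x) ≤ 0 := Real.log_nonpos (by linarith) (by linarith)
  have habs : |Real.log (1 - x)| ≤ Real.exp (-(|l| * (V - W))) := by
    rw [abs_of_nonpos hupp]
    linarith
  rw [hdiff, abs_div]
  exact (div_le_div_of_nonneg_right habs hla.le).trans he

theorem ix_cases (hu : μ ≤ al iu) (hd : μ ≤ -al id) (hμ : 0 < μ) (n : ℕ) :
    al (ix al iu id n) ≠ 0 ∧ al (ix al iu id n) * vv al iu id μ s n0 W n =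
      -(|al (ix al iu id n)| * VV μ s n0 W n) ∧ μ ≤ |al (ix al iu id n)| ∧
      rr al iu id (n + 1) = rr al iu id n + Real.log 2 / al (ix al iu id n) := by
  have hd' : al id < 0 := by linarith
  have hu' : 0 < al iu := by linarith
  unfold ix vv
  rw [rr]
  by_cases h : rr al iu id n ≤ 0
  · simp only [if_pos h]
    refine ⟨hu'.ne', ?_, ?_, trivial⟩
    · rw [abs_of_pos hu']; ring
    · rw [abs_of_pos hu']; linarith
  · simp only [if_neg h]
    refine ⟨hd'.ne, ?_, ?_, trivial⟩
    · rw [abs_of_neg hd']; ring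
    · rw [abs_of_neg hd']; linarith

theorem VV_ge (hμ : 0 < μ) (hs : 1 < s) (hn0 : 1 ≤ n0) (n : ℕ) : W ≤ VV μ s n0 W n := by
  unfold VV
  have hn : (0 : ℝ) ≤ n := Nat.cast_nonneg n
  have hn0' : (1 : ℝ) ≤ n0 := by exact_mod_cast hn0
  have h1 : 0 ≤ Real.log ((n : ℝ) + n0) := Real.log_nonneg (by linarith)
  have h2 : 0 ≤ s / μ := by positivity
  have := mul_nonneg h2 h1
  linarith

theorem VV_exp (hμ : 0 < μ) (hs : 1 < s) (hn0 : 1 ≤ n0) {l : ℝ} (hl : μ ≤ l) (n : ℕ) :
    Real.exp (-(l * (VV μ s n0 W n - W))) / l ≤ ee μ s n0 n := by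
  have hn : (0 : ℝ) ≤ n := Nat.cast_nonneg n
  have hn0' : (1 : ℝ) ≤ n0 := by exact_mod_cast hn0
  have h1 : 0 ≤ Real.log ((n : ℝ) + n0) := Real.log_nonneg (by linarith)
  have hl0 : 0 < l := by linarith
  have h2 : Real.exp (-(l * (VV μ s n0 W n - W))) ≤ ((n : ℝ) + n0) ^ (-s) := by
    rw [Real.rpow_def_of_pos (by linarith)]
    apply Real.exp_le_exp.2
    unfold VV
    have h3 : μ * (s / μ * Real.log ((n : ℝ) + n0)) = s * Real.log ((n : ℝ) + n0) := by
      field_simp
    have h4 : 0 ≤ s / μ * Real.log ((n : ℝ) + n0) := by positivity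
    have h5 := mul_le_mul_of_nonneg_right hl h4
    have h6 : l * (W + s / μ * Real.log ((n : ℝ) + n0) - W) =
        l * (s / μ * Real.log ((n : ℝ) + n0)) := by ring
    rw [h6]
    linarith
  unfold ee
  exact div_le_div₀ (by positivity) h2 hμ hl

theorem ee_nonneg (hμ : 0 < μ) (n : ℕ) : 0 ≤ ee μ s n0 n := by
  unfold ee
  positivity

theorem ww_bound (hu : μ ≤ al iu) (hd : μ ≤ -al id) (hμ : 0 < μ) (hs : 1 < s) (hn0 : 1 ≤ n0)
    (hsum : ∀ n, ∑ k ∈ Finset.range n, ee μ s n0 k ≤ 1) (hW : |c| + KK al iu id + 1 ≤ W) (n : ℕ) :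
    |ww al iu id μ s n0 c W n - c - rr al iu id n| ≤ ∑ k ∈ Finset.range n, ee μ s n0 k ∧
      |ww al iu id μ s n0 c W n| ≤ W := by
  have hr := rr_abs (al := al) (iu := iu) (id := id) (by linarith) (by linarith)
  have fin : ∀ n, |ww al iu id μ s n0 c W n - c - rr al iu id n| ≤
      ∑ k ∈ Finset.range n, ee μ s n0 k → |ww al iu id μ s n0 c W n| ≤ W := by
    intro n h
    have h1 : ww al iu id μ s n0 c W n =
        (ww al iu id μ s n0 c W n - c - rr al iu id n) + c + rr al iu id n := by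
      ring
    rw [h1]
    have h2 := abs_add_three (ww al iu id μ s n0 c W n - c - rr al iu id n) c (rr al iu id n)
    have h3 := hr n
    have h4 := hsum n
    linarith
  induction n with
  | zero =>
    have h : |ww al iu id μ s n0 c W 0 - c - rr al iu id 0| ≤
        ∑ k ∈ Finset.range 0, ee μ s n0 k := by
      simp [ww, rr]
    exact ⟨h, fin 0 h⟩
  | succ n ih =>
    obtain ⟨h1, h2, h3, h4⟩ := ix_cases (s := s) (n0 := n0) W hu hd hμ n
    obtain ⟨-, h7⟩ := one_step h1 ih.2 h2 (VV_ge W hμ hs hn0 n) (VV_exp W hμ hs hn0 h3 n)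
    have h8 : |ww al iu id μ s n0 c W (n + 1) - c - rr al iu id (n + 1)| ≤
        ∑ k ∈ Finset.range (n + 1), ee μ s n0 k := by
      have e1 : ww al iu id μ s n0 c W (n + 1) - c - rr al iu id (n + 1) =
          (ww al iu id μ s n0 c W n - c - rr al iu id n) +
          (Real.log (2 * Real.exp (al (ix al iu id n) * ww al iu id μ s n0 c W n) -
            Real.exp (al (ix al iu id n) * vv al iu id μ s n0 W n)) / al (ix al iu id n)
            - ww al iu id μ s n0 c W n - Real.log 2 / al (ix al iu id n)) := by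
        rw [h4, ww]
        ring
      rw [e1, Finset.sum_range_succ]
      exact (abs_add_le _ _).trans (add_le_add ih.1 h7)
    exact ⟨h8, fin (n + 1) h8⟩

theorem ww_rec (hu : μ ≤ al iu) (hd : μ ≤ -al id) (hμ : 0 < μ) (hs : 1 < s) (hn0 : 1 ≤ n0)
    (hsum : ∀ n, ∑ k ∈ Finset.range n, ee μ s n0 k ≤ 1) (hW : |c| + KK al iu id + 1 ≤ W) :
    Rec al (ix al iu id) (vv al iu id μ s n0 W) (ww al iu id μ s n0 c W) := by
  intro n
  obtain ⟨h1, h2, h3, h4⟩ := ix_cases (s := s) (n0 := n0) W hu hd hμ n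
  obtain ⟨h8, -⟩ := one_step h1 (ww_bound c W hu hd hμ hs hn0 hsum hW n).2 h2
    (VV_ge W hμ hs hn0 n) (VV_exp W hμ hs hn0 h3 n)
  unfold Gf
  rw [if_neg h1]
  set l := al (ix al iu id n) with hl
  have e1 : l * ww al iu id μ s n0 c W (n + 1) =
      Real.log (2 * Real.exp (l * ww al iu id μ s n0 c W n) -
        Real.exp (l * vv al iu id μ s n0 W n)) := by
    rw [ww, ← hl]
    field_simp
  rw [e1, Real.exp_log h8]
  have e2 : (1 - 1 / 2 : ℝ) * Real.exp (l * vv al iu id μ s n0 W n) + 1 / 2 *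
      (2 * Real.exp (l * ww al iu id μ s n0 c W n) - Real.exp (l * vv al iu id μ s n0 W n)) =
      Real.exp (l * ww al iu id μ s n0 c W n) := by ring
  rw [e2, Real.log_exp]
  field_simp

end Seq

/-- Summability of a stretched exponential against a geometric sequence. -/
theorem summable_stretched (D θ : ℝ) (hD : 0 < D) (hθ1 : θ < 1) (n0 : ℕ) :
    Summable (fun n : ℕ => (1 / 2 : ℝ) ^ n * Real.exp (D * ((n : ℝ) + n0) ^ θ)) := by
  have hr : Real.exp (1 / 2) / 2 < 1 := by
    rw [div_lt_one (by norm_num)]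
    have h1 : Real.exp (1 / 2) ^ 2 < 2 ^ 2 := by
      rw [← Real.exp_nat_mul]
      have := Real.exp_one_lt_d9
      norm_num
      linarith
    exact lt_of_pow_lt_pow_left₀ 2 (by norm_num) h1
  have hg : Summable (fun n : ℕ => Real.exp (1 / 2 * n0) * (Real.exp (1 / 2) / 2) ^ n) :=
    (summable_geometric_of_lt_one (by positivity) hr).mul_left _
  refine Summable.of_norm_bounded_eventually_nat hg ?_
  have h1 : Tendsto (fun x : ℝ => x ^ (-(1 - θ))) atTop (𝓝 0) :=
    tendsto_rpow_neg_atTop (by linarith)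
  have h2 : ∀ᶠ x : ℝ in atTop, x ^ (-(1 - θ)) < 1 / (2 * D) :=
    h1.eventually_lt_const (by positivity)
  have h3 : Tendsto (fun n : ℕ => (n : ℝ) + n0) atTop atTop :=
    tendsto_atTop_add_const_right _ _ tendsto_natCast_atTop_atTop
  filter_upwards [h3.eventually h2, h3.eventually (eventually_gt_atTop 0)] with n hn hpos
  rw [Real.norm_of_nonneg (by positivity)]
  set x : ℝ := (n : ℝ) + n0 with hx
  have h4 : x ^ θ = x * x ^ (-(1 - θ)) := by
    have h10 := Real.rpow_add hpos 1 (-(1 - θ))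
    rw [Real.rpow_one] at h10
    rw [← h10]
    congr 1
    ring
  have h5 : D * x ^ θ ≤ 1 / 2 * x := by
    rw [h4]
    have h6 : D * (x * x ^ (-(1 - θ))) ≤ D * (x * (1 / (2 * D))) :=
      mul_le_mul_of_nonneg_left (mul_le_mul_of_nonneg_left hn.le hpos.le) hD.le
    have h7 : D * (x * (1 / (2 * D))) = 1 / 2 * x := by
      field_simp
    linarith
  calc (1 / 2 : ℝ) ^ n * Real.exp (D * x ^ θ) ≤ (1 / 2 : ℝ) ^ n * Real.exp (1 / 2 * x) := by
        gcongr
    _ = Real.exp (1 / 2 * n0) * (Real.exp (1 / 2) / 2) ^ n := by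
        have h11 : Real.exp (1 / 2 * (n : ℝ)) = Real.exp (1 / 2) ^ n := by
          rw [← Real.exp_nat_mul]
          congr 1
          ring
        rw [hx, mul_add, Real.exp_add, h11, div_pow, div_pow, one_pow]
        ring

/-- **The family of sequences for an indefinite diagonal generator**, with double exponential
summability. -/
theorem indef_family (al : Fin 2 → ℝ) (iu id : Fin 2) (μ : ℝ) (hμ : 0 < μ) (hu : μ ≤ al iu)
    (hd : μ ≤ -al id) (γ : ℝ) (hγ : 0 < γ) (hγμ : γ < μ) (a b : ℝ) :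
    ∃ (idx : ℕ → Fin 2) (v : ℕ → ℝ), ∀ c : ℝ, a ≤ c → c ≤ b →
      ∃ w : ℕ → ℝ, w 0 = c ∧ Rec al idx v w ∧
        Summable (fun n => (1 / 2 : ℝ) ^ n *
          Real.exp (Real.exp (γ * max (max |w n| |w (n + 1)|) |v n|))) := by
  set W : ℝ := |a| + |b| + KK al iu id + 1 with hW
  set s : ℝ := (1 + μ / γ) / 2 with hs
  have hμγ : 1 < μ / γ := by rw [lt_div_iff₀ hγ]; linarith
  have hs1 : 1 < s := by rw [hs]; linarith
  have hθ : γ * (s / μ) < 1 := by
    have h1 : γ * (s / μ) = (γ / μ + 1) / 2 := by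
      rw [hs]
      field_simp
    have h2 : γ / μ < 1 := by rw [div_lt_one hμ]; exact hγμ
    rw [h1]
    linarith
  obtain ⟨n0, hn0, hsum⟩ : ∃ n0 : ℕ, 1 ≤ n0 ∧ ∀ n, ∑ k ∈ Finset.range n, ee μ s n0 k ≤ 1 := by
    have hf : Summable (fun n : ℕ => ((n : ℝ)) ^ (-s)) := Real.summable_nat_rpow.2 (by linarith)
    have h1 := tendsto_sum_nat_add (fun n : ℕ => ((n : ℝ)) ^ (-s))
    have h2 : ∀ᶠ i : ℕ in atTop, ∑' k : ℕ, (((k + i : ℕ) : ℝ)) ^ (-s) < μ :=
      h1.eventually_lt_const hμ
    obtain ⟨n0, h3, h4⟩ := (h2.and (eventually_ge_atTop 1)).exists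
    refine ⟨n0, h4, fun n => ?_⟩
    have h5 : Summable (fun k : ℕ => (((k + n0 : ℕ) : ℝ)) ^ (-s)) := (summable_nat_add_iff n0).2 hf
    have h6 := h5.sum_le_tsum (Finset.range n) (fun k _ => by positivity)
    unfold ee
    rw [← Finset.sum_div, div_le_one hμ]
    have h7 : ∑ k ∈ Finset.range n, ((k : ℝ) + n0) ^ (-s) =
        ∑ k ∈ Finset.range n, (((k + n0 : ℕ) : ℝ)) ^ (-s) := by
      apply Finset.sum_congr rfl
      intro k _
      push_cast
      rfl
    rw [h7]
    linarith
  refine ⟨ix al iu id, vv al iu id μ s n0 W, fun c hac hcb => ?_⟩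
  have hc : |c| ≤ |a| + |b| := by
    rw [abs_le]
    have h1 := neg_abs_le a
    have h2 := abs_nonneg b
    have h3 := le_abs_self b
    have h4 := abs_nonneg a
    constructor <;> linarith
  have hW' : |c| + KK al iu id + 1 ≤ W := by rw [hW]; linarith
  have hW0 : 0 ≤ W := by
    have := KK_pos (al := al) (iu := iu) (id := id) (by linarith) (by linarith)
    have := abs_nonneg a
    have := abs_nonneg b
    rw [hW]
    linarith
  refine ⟨ww al iu id μ s n0 c W, rfl, ww_rec c W hu hd hμ hs1 hn0 hsum hW', ?_⟩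
  have hw := fun n => (ww_bound c W hu hd hμ hs1 hn0 hsum hW' n).2
  refine Summable.of_nonneg_of_le (fun n => by positivity) (fun n => ?_)
    (summable_stretched (Real.exp (γ * W)) (γ * (s / μ)) (Real.exp_pos _) hθ n0)
  have h5 := VV_ge W hμ hs1 hn0 n
  have hvabs : |vv al iu id μ s n0 W n| = VV μ s n0 W n := by
    have h0 : 0 ≤ VV μ s n0 W n := hW0.trans h5
    unfold vv
    split_ifs
    · rw [abs_neg, abs_of_nonneg h0]
    · rw [abs_of_nonneg h0]
  have h1 : max (max |ww al iu id μ s n0 c W n| |ww al iu id μ s n0 c W (n + 1)|)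
      |vv al iu id μ s n0 W n| ≤ VV μ s n0 W n :=
    max_le (max_le ((hw n).trans h5) ((hw (n + 1)).trans h5)) hvabs.le
  apply mul_le_mul_of_nonneg_left _ (by positivity)
  apply Real.exp_le_exp.2
  refine (Real.exp_le_exp.2 (mul_le_mul_of_nonneg_left h1 hγ.le)).trans (le_of_eq ?_)
  have hn : (0 : ℝ) ≤ n := Nat.cast_nonneg n
  have hn0' : (1 : ℝ) ≤ n0 := by exact_mod_cast hn0
  unfold VV
  rw [mul_add, Real.exp_add, Real.rpow_def_of_pos (by linarith)]
  congr 1
  congr 1
  ring

end Pool.Agent.H6.BS
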